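import Mathlib
import Pool.Agent.H.MP_6087e2_al.A

namespace Pool.Agent.Results.MP_6087e2_al.All

open Matrix

/-- Any two elements of `G` with a common fixed point on the unit sphere commute. -/
def LocComm {n : ℕ} (G : Subgroup (specialOrthogonalGroup (Fin n) ℝ)) : Prop :=
  ∀ g ∈ G, ∀ h ∈ G, ∀ x : Fin n → ℝ, ∑ i, x i ^ 2 = 1 → g.1 *ᵥ x = x → h.1 *ᵥ x = x → g * h = h * g

open Pool.Agent.H.MP_6087e2_al

theorem result (n : ℕ) (hn : 6 ≤ n) : ∃ G : Subgroup (specialOrthogonalGroup (Fin n) ℝ),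
    LocComm G ∧ Nonempty (G ≃* FreeGroup (Fin 2)) ∧
      ∃ g ∈ G, ∃ x : Fin n → ℝ, x ≠ 0 ∧ g.1 *ᵥ x = -x := by
  have key : ∀ n, (n = 4 ∨ 6 ≤ n) →
      ∃ φ : F →* Matrix (Fin n) (Fin n) ℝ, G φ ∧ Ng φ ∧ ∀ w, (φ w).det = 1 := fun n hn => by
    induction n using Nat.strong_induction_on with
    | _ n ih =>
    obtain rfl | rfl | rfl | ⟨m, rfl, hm⟩ : n = 4 ∨ n = 3 + 3 ∨ n = 4 + 4 ∨
        ∃ m, n = m + 3 ∧ (m = 4 ∨ 6 ≤ m) := by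
      by_contra h
      simp only [not_or, not_exists, not_and] at h
      have := h.2.2.2 (n - 3)
      omega
    · exact four
    · obtain ⟨φ, h1, h2, -⟩ := three (-1) (.inr rfl)
      obtain ⟨θ, a, b, c⟩ := sum h1 h1 (h2 rfl)
      refine ⟨θ, a, b, fun w => ?_⟩
      simpa [c] using congrArg det ((mem_orthogonalGroup_iff _ _).1 (h1.1 w))
    · obtain ⟨φ, h1, h2, h3⟩ := four
      obtain ⟨θ, a, b, c⟩ := sum h1 h1 h2
      exact ⟨θ, a, b, fun w => by simp [c, h3]⟩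
    · obtain ⟨φ, h1, h2, h3⟩ := ih m (by omega) hm
      obtain ⟨ψ, k1, -, k3⟩ := three 1 (.inl rfl)
      obtain ⟨θ, a, b, c⟩ := sum h1 k1 h2
      exact ⟨θ, a, b, fun w => by simp [c, h3, k3 rfl]⟩
  obtain ⟨φ, ⟨h1, h2, h3⟩, ⟨w, x, x0, hx⟩, h4⟩ := key n (.inr hn)
  let ψ : F →* specialOrthogonalGroup (Fin n) ℝ := φ.codRestrict _ fun w => ⟨h1 w, h4 w⟩
  refine ⟨ψ.range, ?_, ⟨(MonoidHom.ofInjective ((injective_iff_map_eq_one ψ).2 fun w h =>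
    h2 w (congrArg Subtype.val h))).symm⟩, ψ w, ⟨w, rfl⟩, x, x0, hx⟩
  rintro _ ⟨g, rfl⟩ _ ⟨h, rfl⟩ x hx hg hh
  rw [← map_mul, ← map_mul, h3 g h x (by rintro rfl; simp at hx) hg hh]

end Pool.Agent.Results.MP_6087e2_al.All
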